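import Pool.Agent.R745.CDX.Defs

set_option autoImplicit false

namespace R745CDX
open Finset H825CD

theorem XNC_claim (m k l a b z w : ℝ) (hm0 : 0 ≤ m) (hk : k = 0 ∨ 1 ≤ k)
    (hl : l = 0 ∨ 1 ≤ l) (ha0 : 0 ≤ a) (hb0 : 0 ≤ b) (ha1 : a ≤ 1) (hb1 : b ≤ 1)
    (hz : 0 ≤ z) (hw : 0 ≤ w) (ha : a ≤ k * z) (hb : b ≤ l * w) (h1 : z * (1 - b + w) ≤ m)
    (h2 : w * (1 - a + z) ≤ m) (hzwm : z * w ≤ m) (hkl1 : k * l - k - l ≤ 1)
    (at' bt x y N' : ℝ) (hA : at' + x + a = 1) (hB : bt + y + b = 1)
    (A1 : (at' + z) * (y + w) ≤ m) (A2 : (x + z) * (bt + w) ≤ m)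
    (hN : k + l ≤ N' - 1) (hN2 : 2 ≤ N') :
    at' * y + x * bt + a * (1 - b) + b * (1 - a) + a * b ≤ N' * m := by
  have S : at' * y + x * bt ≤ 2 * m - w * (1 - a) - z * (1 - b) - 2 * (z * w) := by
    have e1 : at' + x = 1 - a := by linarith
    have e2 : bt + y = 1 - b := by linarith
    have e3 : w * (1 - a) = w * at' + w * x := by rw [← e1]; ring
    have e4 : z * (1 - b) = z * bt + z * y := by rw [← e2]; ring
    rw [e3, e4]
    nlinarith [A1, A2]
  have hzw : 0 ≤ z * w := mul_nonneg hz hw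
  have hwa : 0 ≤ w * (1 - a) := mul_nonneg hw (by linarith)
  have hzb : 0 ≤ z * (1 - b) := mul_nonneg hz (by linarith)
  have g1 : z * (1 - b) ≤ m - z * w := by nlinarith [h1]
  have g2 : w * (1 - a) ≤ m - z * w := by nlinarith [h2]
  rcases hk with hk | hk
  · -- `k = 0`
    subst hk
    have ha' : a = 0 := by nlinarith
    subst ha'
    rcases hl with hl | hl
    · subst hl
      have hb' : b = 0 := by nlinarith
      subst hb'
      nlinarith [S, mul_le_mul_of_nonneg_right hN2 hm0]
    · have hwm : w ≤ m := by nlinarith [h2]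
      have e : (l - 1) * w ≤ (l - 1) * m := mul_le_mul_of_nonneg_left hwm (by linarith)
      have e2 : (l + 1) * m ≤ N' * m := mul_le_mul_of_nonneg_right (by linarith) hm0
      nlinarith [S]
  · rcases hl with hl | hl
    · subst hl
      have hb' : b = 0 := by nlinarith
      subst hb'
      have hzm : z ≤ m := by nlinarith [h1]
      have e : (k - 1) * z ≤ (k - 1) * m := mul_le_mul_of_nonneg_left hzm (by linarith)
      have e2 : (k + 1) * m ≤ N' * m := mul_le_mul_of_nonneg_right (by linarith) hm0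
      nlinarith [S]
    · -- main case
      have t1 : a * (1 - b) ≤ k * (z * (1 - b)) := by
        have := mul_le_mul_of_nonneg_right ha (show (0 : ℝ) ≤ 1 - b by linarith)
        linarith [this, mul_assoc k z (1 - b)]
      have t2 : b * (1 - a) ≤ l * (w * (1 - a)) := by
        have := mul_le_mul_of_nonneg_right hb (show (0 : ℝ) ≤ 1 - a by linarith)
        linarith [this, mul_assoc l w (1 - a)]
      have t3 : a * b ≤ (k * l) * (z * w) := by
        have := mul_le_mul ha hb hb0 (by positivity)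
        nlinarith [this]
      have u1 : (k - 1) * (z * (1 - b)) ≤ (k - 1) * (m - z * w) :=
        mul_le_mul_of_nonneg_left g1 (by linarith)
      have u2 : (l - 1) * (w * (1 - a)) ≤ (l - 1) * (m - z * w) :=
        mul_le_mul_of_nonneg_left g2 (by linarith)
      have main : at' * y + x * bt + a * (1 - b) + b * (1 - a) + a * b
          ≤ (k + l) * m + (k * l - k - l) * (z * w) := by
        nlinarith [S, t1, t2, t3, u1, u2]
      have key : (k * l - k - l) * (z * w) ≤ m := by
        have := mul_le_mul_of_nonneg_right hkl1 hzw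
        linarith
      have fin : (k + l + 1) * m ≤ N' * m := mul_le_mul_of_nonneg_right (by linarith) hm0
      linarith [main, key, fin]

theorem tX_nc : X_nc := by
  intro N C α β Q m k l a b z w hP hα hβ hsα hsβ hsplit hC2 hC ⟨t, htC, hαt, hβt⟩
  have hm0 := hP.hm0
  have hm := hP.hm
  have hmm : m ≤ 1 / 9 := by
    rcases hP.hQ with h | h <;> subst h <;> norm_num [qb] at hm <;> linarith
  have hk : (k : ℝ) = 0 ∨ 1 ≤ (k : ℝ) := by
    rcases Nat.eq_zero_or_pos k with h0 | h0
    · left; rw [h0]; norm_num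
    · right; exact_mod_cast h0
  have hl : (l : ℝ) = 0 ∨ 1 ≤ (l : ℝ) := by
    rcases Nat.eq_zero_or_pos l with h0 | h0
    · left; rw [h0]; norm_num
    · right; exact_mod_cast h0
  have hQ5 : (5 : ℝ) ≤ Q := by
    rcases hP.hQ with h | h <;> subst h <;> norm_num
  have hkl1 : (k : ℝ) * l - k - l ≤ 1 := by
    have h5 : k + l ≤ 5 := by
      rcases hP.hQ with h | h <;> omega
    have h6 : k * l ≤ k + l + 1 := by
      have hk5 : k ≤ 5 := by omega
      have hl5 : l ≤ 5 := by omega
      clear hsplit hP hC hm hk hl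
      interval_cases k <;> interval_cases l <;> omega
    have h7 : (k : ℝ) * l ≤ k + l + 1 := by exact_mod_cast h6
    linarith
  have hCR : (C.card : ℝ) + k + l ≤ Q + 1 := by exact_mod_cast hC
  have hz := hP.hz
  have hw := hP.hw
  have ha0 := hP.ha0
  have hb0 := hP.hb0
  set x : ℝ := ∑ i ∈ C \ {t}, α i with hxdef
  set y : ℝ := ∑ i ∈ C \ {t}, β i with hydef
  have hx : 0 ≤ x := Finset.sum_nonneg fun i hi => hα i (Finset.mem_sdiff.1 hi).1
  have hy : 0 ≤ y := Finset.sum_nonneg fun i hi => hβ i (Finset.mem_sdiff.1 hi).1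
  have htsub : {t} ⊆ C := by simpa using htC
  have sα : ∑ i ∈ C, α i = x + α t := by
    rw [← Finset.sum_sdiff htsub]
    simp [hxdef]
  have sβ : ∑ i ∈ C, β i = y + β t := by
    rw [← Finset.sum_sdiff htsub]
    simp [hydef]
  have A1 : (α t + z) * (y + w) ≤ m := by
    have := hsplit {t} htsub
    simpa [hydef] using this
  have A2 : (x + z) * (β t + w) ≤ m := by
    have := hsplit (C \ {t}) Finset.sdiff_subset
    rw [Finset.sdiff_sdiff_eq_self htsub] at this
    simpa [hxdef] using this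
  have hA : α t + x + a = 1 := by linarith
  have hB : β t + y + b = 1 := by linarith
  have hz2 : z ≤ 2 * m := by
    have h1 := hP.h1
    nlinarith [mul_nonneg hz (show (0 : ℝ) ≤ (1 - b + w) - 1 / 2 by linarith)]
  have hw2 : w ≤ 2 * m := by
    have h2 := hP.h2
    nlinarith [mul_nonneg hw (show (0 : ℝ) ≤ (1 - a + z) - 1 / 2 by linarith)]
  have hzwm : z * w ≤ m := by
    have q : z * w ≤ (2 * m) * (2 * m) := mul_le_mul hz2 hw2 hw (by linarith)
    nlinarith [q, mul_nonneg hm0 (show (0 : ℝ) ≤ 1 / 9 - m by linarith)]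
  have hexp : 1 - α t * β t = α t * y + x * β t + a * (1 - b) + b * (1 - a) + a * b + x * y := by
    have e1 : α t = 1 - x - a := by linarith
    have e2 : β t = 1 - y - b := by linarith
    rw [e1, e2]
    ring
  have sprod : ∑ i ∈ C, α i * β i = (∑ i ∈ C \ {t}, α i * β i) + α t * β t := by
    rw [← Finset.sum_sdiff htsub]
    simp
  rcases Nat.lt_or_ge 2 C.card with h3 | h2
  · -- at least three common letters
    have h3' : (3 : ℝ) ≤ C.card := by exact_mod_cast h3
    have T := XNC_claim m k l a b z w hm0 hk hl ha0 hb0 hP.ha1 hP.hb1 hz hw hP.ha hP.hb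
      hP.h1 hP.h2 hzwm hkl1 (α t) (β t) x y (Q - 1) hA hB A1 A2
      (by linarith) (by linarith)
    have hrest : 0 ≤ ∑ i ∈ C \ {t}, α i * β i :=
      Finset.sum_nonneg fun i hi => mul_nonneg (hα i (Finset.mem_sdiff.1 hi).1)
        (hβ i (Finset.mem_sdiff.1 hi).1)
    have hy2 : y ≤ 2 * m := by
      nlinarith [A1, mul_nonneg (show (0 : ℝ) ≤ α t - 1 / 2 by linarith) hy,
        mul_nonneg (show (0 : ℝ) ≤ α t + z by linarith) hw, mul_nonneg hz hy]
    have hx2 : x ≤ 2 * m := by
      nlinarith [A2, mul_nonneg (show (0 : ℝ) ≤ β t - 1 / 2 by linarith) hx,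
        mul_nonneg (show (0 : ℝ) ≤ x + z by linarith) hw,
        mul_nonneg hz (show (0 : ℝ) ≤ β t by linarith)]
    have hxy : x * y ≤ m := by
      have q : x * y ≤ (2 * m) * (2 * m) := mul_le_mul hx2 hy2 hy (by linarith)
      nlinarith [q, mul_nonneg hm0 (show (0 : ℝ) ≤ 1 / 9 - m by linarith)]
    rw [sprod]
    nlinarith [T, hrest, hxy, hexp]
  · -- exactly two
    have hc2 : C.card = 2 := le_antisymm h2 hC2
    have hc2' : (C.card : ℝ) = 2 := by exact_mod_cast hc2
    have T := XNC_claim m k l a b z w hm0 hk hl ha0 hb0 hP.ha1 hP.hb1 hz hw hP.ha hP.hb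
      hP.h1 hP.h2 hzwm hkl1 (α t) (β t) x y Q hA hB A1 A2
      (by linarith) (by linarith)
    have hone : (C \ {t}).card = 1 := by
      rw [Finset.card_sdiff_of_subset htsub, hc2]
      simp
    obtain ⟨s, hs⟩ := Finset.card_eq_one.1 hone
    have ex : x = α s := by rw [hxdef, hs]; simp
    have ey : y = β s := by rw [hydef, hs]; simp
    have ep : ∑ i ∈ C \ {t}, α i * β i = x * y := by rw [hs, ex, ey]; simp
    rw [sprod, ep]
    linarith [T, hexp]

end R745CDX
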